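import Pool.Agent.Helper63.EQ.Defs

/-! # Project EQ, block K: the kernel of the levels -/

set_option autoImplicit false

namespace Pool.Agent.Helper95.EQ

open MeasureTheory Set Filter Topology
open Pool.Agent.Helper95.EW
open Pool.Agent.Helper71.MR (gt gt_nonneg gt_zero gt_integrable gt_cont gt_le_one)
open Pool.Agent.Helper63.EQ (nu kw phi Tr Adm)

variable {w : ℝ → ℝ} {Cw : ℝ}

theorem E_sub (r : ℝ) : {lam : ℝ | lam ∈ Nr w ∧ Ac w lam < Real.exp (-r)} ⊆
    {lam : ℝ | 0 < lam ∧ Ac w lam < Real.exp (-r)} := fun _ h => ⟨h.1.1, h.2⟩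

theorem E_fin (h : Adm w Cw) {r : ℝ} (hr : 0 < r) :
    volume {lam : ℝ | lam ∈ Nr w ∧ Ac w lam < Real.exp (-r)} ≠ ⊤ :=
  ne_top_of_le_ne_top (fin_vol h.hw h.hub (Real.exp_lt_one_iff.mpr (by linarith))) (measure_mono (E_sub r))

theorem nu_nonneg (w : ℝ → ℝ) (r : ℝ) : 0 ≤ nu w r := measureReal_nonneg

theorem nu_anti (h : Adm w Cw) {r r' : ℝ} (h1 : 0 < r) (h2 : r ≤ r') : nu w r' ≤ nu w r :=
  measureReal_mono (fun _ hl => ⟨hl.1, hl.2.trans_le (Real.exp_le_exp.mpr (by linarith))⟩) (E_fin h h1)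

theorem nu_ge (h : Adm w Cw) {r r' : ℝ} (h1 : 0 < r) (h2 : r < r') (_h3 : r' ≤ 1 / 2) :
    w (Real.exp (-r')) - w (Real.exp (-(1 / 2))) ≤ nu w r := by
  have hed : Real.exp (-r) < 1 := Real.exp_lt_one_iff.mpr (by linarith)
  have hmem : Real.exp (-r') ∈ Ico (0:ℝ) 1 := ⟨(Real.exp_pos _).le, Real.exp_lt_one_iff.mpr (by linarith)⟩
  have hset : {lam : ℝ | 0 < lam ∧ Ac w lam < Real.exp (-r)} ⊆
      {lam : ℝ | lam ∈ Nr w ∧ Ac w lam < Real.exp (-r)} ∪ Fr w := by
    intro lam hl
    rcases le_or_gt (Real.exp (-(1 / 2))) (Ac w lam) with h4 | h4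
    · exact Or.inl ⟨⟨hl.1, h4⟩, hl.2⟩
    · exact Or.inr ⟨hl.1, h4⟩
  have e1 := real_ge h.hw h.hub hmem (Real.exp_lt_exp.mpr (by linarith : -r' < -r)) hed
  have e2 : volume.real {lam : ℝ | 0 < lam ∧ Ac w lam < Real.exp (-r)} ≤ nu w r + volume.real (Fr w) :=
    (measureReal_mono hset (measure_union_ne_top (E_fin h h1) (Fr_fin h.hw h.hub))).trans (measureReal_union_le _ _)
  have e3 := Fr_vol h.hw h.h0 h.hub
  linarith

theorem kw_nonneg (w : ℝ → ℝ) (r : ℝ) : 0 ≤ kw w r := by
  unfold kw
  split_ifs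
  · exact mul_nonneg (Real.exp_pos _).le (nu_nonneg w r)
  · exact le_rfl

theorem kw_supp (w : ℝ → ℝ) {r : ℝ} (hr : r ≤ 0 ∨ 1 / 2 ≤ r) : kw w r = 0 := by
  unfold kw
  rcases hr with hr | hr
  · rw [if_neg (not_lt.mpr hr)]
  · have : {lam : ℝ | lam ∈ Nr w ∧ Ac w lam < Real.exp (-r)} = ∅ := by
      ext lam
      simp only [mem_setOf_eq, mem_empty_iff_false, iff_false, not_and, not_lt]
      intro hl
      exact (Real.exp_le_exp.mpr (by linarith)).trans hl.2
    unfold nu
    rw [this]
    simp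

theorem E_meas (h : Adm w Cw) : MeasurableSet {p : ℝ × ℝ | p.1 ∈ Nr w ∧ Ac w p.1 < Real.exp (-p.2)} :=
  ((Nr_meas h.hub).preimage measurable_fst).inter
    (measurableSet_lt ((Ac_meas h.hub).comp measurable_fst) (Real.measurable_exp.comp measurable_snd.neg))

theorem nu_meas (h : Adm w Cw) : Measurable (nu w) := by
  have := (measurable_measure_prodMk_right (μ := (volume : Measure ℝ)) (E_meas h)).ennreal_toReal
  exact this

theorem kw_meas (h : Adm w Cw) : Measurable (kw w) := by
  unfold kw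
  refine Measurable.ite measurableSet_Ioi ?_ measurable_const
  have := nu_meas h
  fun_prop

/-- the level integrand -/
noncomputable def Ph (w : ℝ → ℝ) (F : ℝ → ℝ) (lam r : ℝ) : ℝ :=
  if 0 < r ∧ Ac w lam < Real.exp (-r) then Real.exp (-(r / 2)) * F r else 0

theorem Ac_pos_of {lam : ℝ} (hl : lam ∈ Nr w) : 0 < Ac w lam := (Real.exp_pos _).trans_le hl.2

theorem lt_iff {lam r : ℝ} (hl : lam ∈ Nr w) : Ac w lam < Real.exp (-r) ↔ r < -Real.log (Ac w lam) := by
  rw [← Real.log_lt_iff_lt_exp (Ac_pos_of hl)]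
  constructor <;> intro h <;> linarith

theorem log_le {lam : ℝ} (hl : lam ∈ Nr w) : -Real.log (Ac w lam) ≤ 1 / 2 := by
  have : -(1 / 2) ≤ Real.log (Ac w lam) := by
    rw [Real.le_log_iff_exp_le (Ac_pos_of hl)]
    exact hl.2
  linarith

theorem log_nn (h : Adm w Cw) {lam : ℝ} (hl : lam ∈ Nr w) : 0 ≤ -Real.log (Ac w lam) := by
  have := Real.log_nonpos (Ac_pos_of hl).le (Ac_lt_one h.hub lam).le
  linarith

theorem log_gap {lam : ℝ} (hl : lam ∈ Nr w) (h1 : Ac w lam ≤ 1) : -Real.log (Ac w lam) ≤ 5 / 3 * (1 - Ac w lam) := by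
  have h35 := exp_neg_half
  have ha0 := Ac_pos_of hl
  have ha := hl.2
  rw [← Real.log_inv]
  have e1 := Real.log_le_sub_one_of_pos (inv_pos.mpr ha0)
  have e2 : (Ac w lam)⁻¹ - 1 ≤ 5 / 3 * (1 - Ac w lam) := by
    have e3 : (Ac w lam)⁻¹ - 1 = (1 - Ac w lam) / Ac w lam := by field_simp
    rw [e3, div_le_iff₀ ha0]
    nlinarith
  linarith

theorem Ph_meas (h : Adm w Cw) {F : ℝ → ℝ} (hF : Measurable F) : Measurable (Function.uncurry (Ph w F)) := by
  unfold Ph Function.uncurry
  refine Measurable.ite ?_ ?_ measurable_const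
  · exact (measurableSet_lt measurable_const measurable_snd).inter
      (measurableSet_lt ((Ac_meas h.hub).comp measurable_fst) (Real.measurable_exp.comp measurable_snd.neg))
  · have : Measurable fun r : ℝ => Real.exp (-(r / 2)) * F r := by fun_prop
    exact this.comp measurable_snd

theorem Ph_eq {F : ℝ → ℝ} {lam : ℝ} (hl : lam ∈ Nr w) :
    Ph w F lam = (Ioo 0 (-Real.log (Ac w lam))).indicator (fun r => Real.exp (-(r / 2)) * F r) := by
  funext r
  unfold Ph
  simp only [Set.indicator, mem_Ioo, lt_iff hl]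

theorem Ph_le {F : ℝ → ℝ} {M : ℝ} (hM : ∀ r ∈ Icc (0:ℝ) (1 / 2), |F r| ≤ M) {lam : ℝ} (hl : lam ∈ Nr w) (r : ℝ) :
    |Ph w F lam r| ≤ (Ioo 0 (-Real.log (Ac w lam))).indicator (fun _ => M) r := by
  rw [Ph_eq hl]
  by_cases hr : r ∈ Ioo 0 (-Real.log (Ac w lam))
  · rw [indicator_of_mem hr, indicator_of_mem hr, abs_mul, abs_of_pos (Real.exp_pos _)]
    have h1 := hM r ⟨hr.1.le, hr.2.le.trans (log_le hl)⟩
    have h2 : Real.exp (-(r / 2)) ≤ 1 := Real.exp_le_one_iff.mpr (by linarith [hr.1])
    have h3 := Real.exp_pos (-(r / 2))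
    nlinarith [abs_nonneg (F r)]
  · rw [indicator_of_notMem hr, indicator_of_notMem hr, abs_zero]

theorem Ph_int1 (h : Adm w Cw) {F : ℝ → ℝ} (hF : Measurable F) {M : ℝ} (hM : ∀ r ∈ Icc (0:ℝ) (1 / 2), |F r| ≤ M)
    {lam : ℝ} (hl : lam ∈ Nr w) : Integrable (Ph w F lam) := by
  have h1 : Integrable ((Ioo 0 (-Real.log (Ac w lam))).indicator (fun _ : ℝ => M)) := by
    rw [integrable_indicator_iff measurableSet_Ioo]
    exact integrableOn_const (by rw [Real.volume_Ioo]; exact ENNReal.ofReal_ne_top)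
  refine h1.mono' ((Ph_meas h hF).comp (measurable_const.prodMk measurable_id)).aestronglyMeasurable ?_
  filter_upwards with r
  exact Ph_le hM hl r

theorem Ph_int (h : Adm w Cw) {F : ℝ → ℝ} (hF : Measurable F) {M : ℝ} (hM : ∀ r ∈ Icc (0:ℝ) (1 / 2), |F r| ≤ M) :
    Integrable (Function.uncurry (Ph w F)) ((volume.restrict (Nr w)).prod volume) := by
  have hM0 : 0 ≤ M := (abs_nonneg _).trans (hM 0 ⟨le_rfl, by norm_num⟩)
  rw [integrable_prod_iff (Ph_meas h hF).aestronglyMeasurable]
  constructor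
  · filter_upwards [ae_restrict_mem (Nr_meas h.hub)] with lam hl
    exact Ph_int1 h hF hM hl
  · refine ((gap_int h.h0 h.hw h.hub h.hC).const_mul (M * (5 / 3))).mono' ?_ ?_
    · exact ((Ph_meas h hF).norm.aestronglyMeasurable (μ := (volume.restrict (Nr w)).prod volume)).integral_prod_right'
    · filter_upwards [ae_restrict_mem (Nr_meas h.hub)] with lam hl
      rw [Real.norm_eq_abs, abs_of_nonneg (integral_nonneg fun _ => norm_nonneg _)]
      have h1 : Integrable ((Ioo 0 (-Real.log (Ac w lam))).indicator (fun _ : ℝ => M)) := by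
        rw [integrable_indicator_iff measurableSet_Ioo]
        exact integrableOn_const (by rw [Real.volume_Ioo]; exact ENNReal.ofReal_ne_top)
      have h2 : ∫ r, ‖Function.uncurry (Ph w F) (lam, r)‖ ≤ ∫ r, (Ioo 0 (-Real.log (Ac w lam))).indicator (fun _ : ℝ => M) r :=
        integral_mono (Ph_int1 h hF hM hl).norm h1 fun r => Ph_le hM hl r
      refine h2.trans ?_
      rw [integral_indicator measurableSet_Ioo, setIntegral_const, smul_eq_mul, Real.volume_real_Ioo,
        sub_zero, max_eq_left (log_nn h hl)]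
      have h3 := log_gap hl (Ac_lt_one h.hub lam).le
      nlinarith

theorem Ph_right {F : ℝ → ℝ} (h : Adm w Cw) (r : ℝ) : ∫ lam in Nr w, Ph w F lam r = kw w r * F r := by
  by_cases hr : 0 < r
  · have hE : MeasurableSet {lam : ℝ | Ac w lam < Real.exp (-r)} := measurableSet_lt (Ac_meas h.hub) measurable_const
    have e : (fun lam => Ph w F lam r) =
        {lam : ℝ | Ac w lam < Real.exp (-r)}.indicator (fun _ => Real.exp (-(r / 2)) * F r) := by
      funext lam
      unfold Ph
      simp only [Set.indicator, mem_setOf_eq, hr, true_and]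
    rw [e, integral_indicator hE, setIntegral_const, smul_eq_mul, measureReal_restrict_apply hE]
    unfold kw nu
    rw [if_pos hr]
    have e2 : {lam : ℝ | Ac w lam < Real.exp (-r)} ∩ Nr w = {lam : ℝ | lam ∈ Nr w ∧ Ac w lam < Real.exp (-r)} := by
      ext lam
      simp only [mem_inter_iff, mem_setOf_eq]
      exact and_comm
    rw [e2]
    ring
  · have e : (fun lam => Ph w F lam r) = fun _ => 0 := by
      funext lam
      unfold Ph
      rw [if_neg (fun h => hr h.1)]
    rw [e, kw_supp w (Or.inl (not_lt.mp hr))]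
    simp

theorem Ph_left (h : Adm w Cw) {F : ℝ → ℝ} {lam : ℝ} (hl : lam ∈ Nr w) :
    ∫ r, Ph w F lam r = ∫ r in (0:ℝ)..(-Real.log (Ac w lam)), Real.exp (-(r / 2)) * F r := by
  rw [Ph_eq hl, integral_indicator measurableSet_Ioo, intervalIntegral.integral_of_le (log_nn h hl),
    integral_Ioc_eq_integral_Ioo]

theorem lev_swap (h : Adm w Cw) {F : ℝ → ℝ} (hF : Measurable F) {M : ℝ} (hM : ∀ r ∈ Icc (0:ℝ) (1 / 2), |F r| ≤ M) :
    IntegrableOn (fun lam : ℝ => ∫ r in (0:ℝ)..(-Real.log (Ac w lam)), Real.exp (-(r / 2)) * F r) (Nr w) ∧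
    ∫ lam in Nr w, ∫ r in (0:ℝ)..(-Real.log (Ac w lam)), Real.exp (-(r / 2)) * F r = ∫ r : ℝ, kw w r * F r := by
  have hi := Ph_int h hF hM
  constructor
  · refine hi.integral_prod_left.congr ?_
    filter_upwards [ae_restrict_mem (Nr_meas h.hub)] with lam hl
    exact Ph_left h hl
  · have e1 : ∫ lam in Nr w, ∫ r in (0:ℝ)..(-Real.log (Ac w lam)), Real.exp (-(r / 2)) * F r =
        ∫ lam in Nr w, ∫ r, Ph w F lam r := by
      refine setIntegral_congr_fun (Nr_meas h.hub) fun lam hl => ?_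
      exact (Ph_left h hl).symm
    rw [e1, integral_integral_swap hi]
    exact integral_congr_ae (Eventually.of_forall fun r => Ph_right h r)

theorem kw_int (h : Adm w Cw) : Integrable (kw w) := by
  have hi := Ph_int h (F := fun _ => 1) measurable_const (M := 1) (fun _ _ => by simp)
  refine hi.integral_prod_right.congr (Eventually.of_forall fun r => ?_)
  have := Ph_right (F := fun _ => 1) h r
  rw [mul_one] at this
  exact this

theorem gt_le_abs (δ u : ℝ) : gt δ u ≤ |δ| := by
  unfold gt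
  apply max_le (abs_nonneg _)
  rcases le_total u 0 with h | h
  · exact (min_le_left _ _).trans (h.trans (abs_nonneg _))
  · exact (min_le_right _ _).trans ((by linarith : δ - u ≤ δ).trans (le_abs_self _))

theorem phi_cont (h : Adm w Cw) (δ : ℝ) : Continuous (phi w δ) := by
  unfold phi
  refine continuous_of_dominated (bound := fun r => kw w r * |δ|) ?_ ?_ ((kw_int h).mul_const _) ?_
  · intro y
    have := kw_meas h
    have := (gt_cont δ).measurable
    exact Measurable.aestronglyMeasurable (by fun_prop)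
  · intro y
    filter_upwards with r
    rw [Real.norm_eq_abs, abs_mul, abs_of_nonneg (kw_nonneg w r), abs_of_nonneg (gt_nonneg _ _)]
    exact mul_le_mul_of_nonneg_left (gt_le_abs _ _) (kw_nonneg w r)
  · filter_upwards with r
    exact continuous_const.mul ((gt_cont δ).comp (continuous_id.add continuous_const))

theorem phi_nonneg (w : ℝ → ℝ) (δ y : ℝ) : 0 ≤ phi w δ y :=
  integral_nonneg fun r => mul_nonneg (kw_nonneg w r) (gt_nonneg _ _)

/-- outside `(-1/2, δ)` -/
theorem phi_supp (w : ℝ → ℝ) {δ y : ℝ} (_hδ : 0 ≤ δ) (hy : y ≤ -(1 / 2) ∨ δ ≤ y) : phi w δ y = 0 := by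
  unfold phi
  have e : (fun r => kw w r * gt δ (y + r)) = fun _ => 0 := by
    funext r
    rcases le_or_gt r 0 with h1 | h1
    · rw [kw_supp w (Or.inl h1), zero_mul]
    rcases le_or_gt (1 / 2) r with h2 | h2
    · rw [kw_supp w (Or.inr h2), zero_mul]
    rw [gt_zero, mul_zero]
    rcases hy with hy | hy
    · left; linarith
    · right; linarith
  rw [e]
  simp

/-- Fubini -/
theorem fubK (h : Adm w Cw) {δ : ℝ} {g : ℝ → ℝ} (hg : Measurable g) {M : ℝ}
    (hM : ∀ r ∈ Ioo (0:ℝ) (1 / 2), ∀ u ∈ Ioo 0 δ, |g (u - r)| ≤ M) :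
    ∫ y : ℝ, phi w δ y * g y = ∫ r : ℝ, kw w r * ∫ u : ℝ, gt δ u * g (u - r) := by
  have hk := kw_meas h
  have hgm := (gt_cont δ).measurable
  have hb : ∀ r ∈ Ioo (0:ℝ) (1 / 2), ∀ y, |gt δ (y + r) * g y| ≤ M * gt δ (y + r) := by
    intro r hr y
    rw [abs_mul, abs_of_nonneg (gt_nonneg _ _)]
    by_cases hu : y + r ∈ Ioo 0 δ
    · have := hM r hr (y + r) hu
      rw [add_sub_cancel_right] at this
      nlinarith [gt_nonneg δ (y + r)]
    · have : gt δ (y + r) = 0 := by
        apply gt_zero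
        by_contra hc
        push Not at hc
        exact hu ⟨hc.1, hc.2⟩
      rw [this]
      simp
  have hgi : ∀ r : ℝ, Integrable fun y : ℝ => gt δ (y + r) := fun r => (gt_integrable δ).comp_add_right r
  have hi1 : ∀ r ∈ Ioo (0:ℝ) (1 / 2), Integrable fun y => gt δ (y + r) * g y := by
    intro r hr
    refine ((hgi r).const_mul M).mono' (Measurable.aestronglyMeasurable (by fun_prop)) ?_
    filter_upwards with y
    exact hb r hr y
  have hmu : Measurable (Function.uncurry fun r y : ℝ => kw w r * (gt δ (y + r) * g y)) := by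
    unfold Function.uncurry
    fun_prop
  have hint : Integrable (Function.uncurry fun r y : ℝ => kw w r * (gt δ (y + r) * g y)) (volume.prod volume) := by
    rw [integrable_prod_iff hmu.aestronglyMeasurable]
    constructor
    · filter_upwards with r
      by_cases hr : r ∈ Ioo (0:ℝ) (1 / 2)
      · exact (hi1 r hr).const_mul (kw w r)
      · have : kw w r = 0 := by
          apply kw_supp
          by_contra hc
          push Not at hc
          exact hr ⟨hc.1, hc.2⟩
        simp [Function.uncurry, this]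
    · refine ((kw_int h).mul_const (M * ∫ u, gt δ u)).mono' ?_ ?_
      · exact (hmu.norm.aestronglyMeasurable (μ := (volume : Measure ℝ).prod volume)).integral_prod_right'
      · filter_upwards with r
        rw [Real.norm_eq_abs, abs_of_nonneg (integral_nonneg fun _ => norm_nonneg _)]
        by_cases hr : r ∈ Ioo (0:ℝ) (1 / 2)
        · have e1 : ∫ y, ‖Function.uncurry (fun r y : ℝ => kw w r * (gt δ (y + r) * g y)) (r, y)‖ =
              kw w r * ∫ y, |gt δ (y + r) * g y| := by
            rw [← integral_const_mul]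
            apply integral_congr_ae
            filter_upwards with y
            simp only [Function.uncurry]
            rw [Real.norm_eq_abs, abs_mul, abs_of_nonneg (kw_nonneg w r)]
          rw [e1]
          apply mul_le_mul_of_nonneg_left _ (kw_nonneg w r)
          rw [← integral_add_right_eq_self (fun u => gt δ u) r, ← integral_const_mul]
          exact integral_mono (hi1 r hr).abs ((hgi r).const_mul M) fun y => hb r hr y
        · have : kw w r = 0 := by
            apply kw_supp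
            by_contra hc
            push Not at hc
            exact hr ⟨hc.1, hc.2⟩
          simp [Function.uncurry, this]
  calc ∫ y : ℝ, phi w δ y * g y = ∫ y : ℝ, ∫ r : ℝ, kw w r * (gt δ (y + r) * g y) := by
        apply integral_congr_ae
        filter_upwards with y
        unfold phi
        rw [← integral_mul_const]
        apply integral_congr_ae
        filter_upwards with r
        ring
    _ = ∫ r : ℝ, ∫ y : ℝ, kw w r * (gt δ (y + r) * g y) := (integral_integral_swap hint).symm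
    _ = ∫ r : ℝ, kw w r * ∫ u : ℝ, gt δ u * g (u - r) := by
        apply integral_congr_ae
        filter_upwards with r
        rw [integral_const_mul, ← integral_sub_right_eq_self (fun y => gt δ (y + r) * g y) r]
        congr 1
        apply integral_congr_ae
        filter_upwards with u
        rw [sub_add_cancel]

theorem phi_int (h : Adm w Cw) (δ : ℝ) : ∫ y : ℝ, phi w δ y = (∫ r : ℝ, kw w r) * ∫ u : ℝ, gt δ u := by
  have := fubK h (δ := δ) (g := fun _ => 1) measurable_const (M := 1) (fun _ _ _ _ => by simp)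
  simp only [mul_one] at this
  rw [this, integral_mul_const]

theorem Tr_eq (h : Adm w Cw) {δ : ℝ} (_hδ0 : 0 ≤ δ) (hδ : δ ≤ 1) {f : ℝ → ℝ} (hf : Measurable f) {V M : ℝ}
    (hM : ∀ y ∈ Icc (V - 1) (V + 1), |f y| ≤ M) :
    Tr w δ f V = ∫ r : ℝ, kw w r * ∫ u : ℝ, gt δ u * f (V + u - r) := by
  have := fubK h (δ := δ) (g := fun y => f (V + y)) (hf.comp (measurable_const.add measurable_id)) (M := M)
    (fun r hr u hu => hM _ ⟨by linarith [hr.1, hr.2, hu.1, hu.2], by linarith [hr.1, hr.2, hu.1, hu.2]⟩)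
  unfold Tr
  rw [this]
  apply integral_congr_ae
  filter_upwards with r
  congr 1
  apply integral_congr_ae
  filter_upwards with u
  show gt δ u * f (V + (u - r)) = gt δ u * f (V + u - r)
  rw [add_sub_assoc]

end Pool.Agent.Helper95.EQ
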