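import Pool.Agent.Helper99.MS.Est2

/-! # Project EQ (difference form): a kernel average of the bump sum `g1` -/

set_option autoImplicit false

namespace Pool.Agent.Helper95.EQ

open MeasureTheory Set Filter Topology
open Pool.Agent.Helper99.MS

/-- the average with the kernel `ps` -/
noncomputable def Dv (ps g : ℝ → ℝ) (V : ℝ) : ℝ := ∫ y : ℝ, ps y * g (V + y)

theorem ell_one_le {y : ℝ} (hy : |y| ≤ 1) : ell y ≤ 2 := by
  have := ell_le_linear y
  linarith

theorem ell_shift1 {V y : ℝ} (hy : |y| ≤ 1) : ell (V + y) ≤ 2 * ell V := by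
  have h1 := ell_add V y
  have h2 := ell_one_le hy
  nlinarith [ell_pos V]

theorem ell_sub_le (V t : ℝ) : ell (V - t) ≤ ell V * ell t := by
  have := ell_add V (-t)
  rw [ell_neg] at this
  exact this

/-- **(b), Fubini**: the average of the bump sum is the bump average of the average -/
theorem Dv_g1 {ps : ℝ → ℝ} (hps : Integrable ps) (hsupp : ∀ y, 1 < |y| → ps y = 0) {B : ℝ} (h : GB (ff mr) B) {m : ℝ}
    (hm : 8 ≤ m) (V : ℝ) :
    Dv ps (g1 m) V = ∫ t : ℝ, al m t * Dv ps (ff mr) (V - t) := by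
  have hB := h.nonneg
  have hint : Integrable (Function.uncurry fun y t : ℝ => ps y * (ff mr (V + y - t) * al m t))
      (volume.prod volume) := by
    have h1 : Integrable (fun p : ℝ × ℝ => |ps p.1| * (2 * B * ell V * (ell p.2 * |al m p.2|))) (volume.prod volume) :=
      Integrable.mul_prod (f := fun y => |ps y|) (g := fun t => 2 * B * ell V * (ell t * |al m t|)) hps.abs
        ((ell_al_int hm).const_mul _)
    refine h1.mono' ?_ ?_
    · have e1 : AEStronglyMeasurable (fun p : ℝ × ℝ => ps p.1) (volume.prod volume) := hps.aestronglyMeasurable.comp_fst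
      have e2 : Measurable (fun p : ℝ × ℝ => ff mr (V + p.1 - p.2) * al m p.2) :=
        ((ff_meas mr).comp (by fun_prop : Measurable fun p : ℝ × ℝ => V + p.1 - p.2)).mul
          ((al_cont m).measurable.comp measurable_snd)
      exact e1.mul e2.aestronglyMeasurable
    · filter_upwards with p
      simp only [Function.uncurry]
      rw [Real.norm_eq_abs, abs_mul]
      rcases le_or_gt |p.1| 1 with hp | hp
      · apply mul_le_mul_of_nonneg_left _ (abs_nonneg _)
        refine (g1_bd h m (V + p.1) p.2).trans ?_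
        have e3 := ell_shift1 (V := V) hp
        have e4 : 0 ≤ ell p.2 * |al m p.2| := mul_nonneg (ell_nonneg _) (abs_nonneg _)
        calc B * ell (V + p.1) * (ell p.2 * |al m p.2|) ≤ B * (2 * ell V) * (ell p.2 * |al m p.2|) :=
              mul_le_mul_of_nonneg_right (mul_le_mul_of_nonneg_left e3 hB) e4
          _ = _ := by ring
      · rw [hsupp _ hp]
        simp
  calc Dv ps (g1 m) V = ∫ y : ℝ, ∫ t : ℝ, ps y * (ff mr (V + y - t) * al m t) := by
        unfold Dv g1
        apply integral_congr_ae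
        filter_upwards with y
        rw [← integral_const_mul]
    _ = ∫ t : ℝ, ∫ y : ℝ, ps y * (ff mr (V + y - t) * al m t) := integral_integral_swap hint
    _ = ∫ t : ℝ, al m t * Dv ps (ff mr) (V - t) := by
        apply integral_congr_ae
        filter_upwards with t
        unfold Dv
        rw [← integral_const_mul]
        apply integral_congr_ae
        filter_upwards with y
        rw [show V - t + y = V + y - t by ring]
        ring

/-- the tails of the bump kernel -/
theorem al_tail {m : ℝ} (hm : 8 ≤ m) : ∫ t in (Icc (-1:ℝ) 1)ᶜ, ell t * |al m t| ≤ 16 * Real.exp (-((m - 4) / 4)) := by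
  have hi := ell_al_int hm
  have h4 : 0 ≤ m - 4 := by linarith
  have e0 : (Icc (-1:ℝ) 1)ᶜ = Iio (-1) ∪ Ioi 1 := by
    ext t
    simp only [mem_compl_iff, mem_Icc, not_and_or, not_le, mem_union, mem_Iio, mem_Ioi]
  have e1 : ∫ t in (Icc (-1:ℝ) 1)ᶜ, ell t * |al m t| ≤
      (∫ t in Iic (-1:ℝ), ell t * |al m t|) + ∫ t in Ioi (1:ℝ), ell t * |al m t| := by
    rw [e0, setIntegral_union (by
      rw [Set.disjoint_left]
      intro t h1 h2
      simp only [mem_Iio, mem_Ioi] at h1 h2
      linarith) measurableSet_Ioi hi.integrableOn hi.integrableOn]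
    refine add_le_add ?_ le_rfl
    exact setIntegral_mono_set hi.integrableOn (Eventually.of_forall fun t => mul_nonneg (ell_nonneg _) (abs_nonneg _))
      (Eventually.of_forall fun (t : ℝ) (ht : t < -1) => (le_of_lt ht : t ≤ -1))
  have e2 := tail_Iic hm (a := -1) (by norm_num)
  have e3 := tail_Ioi hm (a := 1) (by norm_num)
  have e4 : ∀ a : ℝ, |a| ≤ 1 → a ^ 2 = 1 → EE (m - 4) a ≤ Real.exp (-((m - 4) / 4)) := by
    intro a ha ha2
    unfold EE
    apply Real.exp_le_exp.mpr
    have := XX_le_sq ha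
    rw [ha2] at this
    nlinarith
  have e5 := e4 (-1) (by norm_num) (by norm_num)
  have e6 := e4 1 (by norm_num) (by norm_num)
  linarith

/-- **(b), upper bound**: the bump average of a function with a bound near `V` and slow growth -/
theorem al_up {m : ℝ} (hm : 8 ≤ m) {Z : ℝ → ℝ} {V U Q : ℝ} (hU0 : 0 ≤ U) (hQ0 : 0 ≤ Q)
    (hU : ∀ v, V - 1 ≤ v → v ≤ V + 1 → |Z v| ≤ U) (hQ : ∀ v, |Z v| ≤ Q * ell v) :
    |∫ t : ℝ, al m t * Z (V - t)| ≤ 16 * U + 16 * Q * ell V * Real.exp (-((m - 4) / 4)) := by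
  have hi := ell_al_int hm
  set b : ℝ → ℝ := fun t => U * (ell t * |al m t|) +
    (Icc (-1:ℝ) 1)ᶜ.indicator (fun t => Q * ell V * (ell t * |al m t|)) t with hb
  have hci : Integrable ((Icc (-1:ℝ) 1)ᶜ.indicator (fun t => Q * ell V * (ell t * |al m t|))) :=
    (hi.const_mul _).indicator measurableSet_Icc.compl
  have hbi : Integrable b := (hi.const_mul U).add hci
  have hle : |∫ t : ℝ, al m t * Z (V - t)| ≤ ∫ t, b t := by
    rw [← Real.norm_eq_abs]
    refine norm_integral_le_of_norm_le hbi ?_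
    filter_upwards with t
    rw [Real.norm_eq_abs, abs_mul]
    have ha := abs_nonneg (al m t)
    have hell := one_le_ell t
    by_cases ht : t ∈ Icc (-1:ℝ) 1
    · have h1 := hU (V - t) (by linarith [ht.2]) (by linarith [ht.1])
      have h2 : b t = U * (ell t * |al m t|) := by
        rw [hb]
        simp only
        rw [indicator_of_notMem (by simpa using ht), add_zero]
      rw [h2]
      calc |al m t| * |Z (V - t)| ≤ |al m t| * U := mul_le_mul_of_nonneg_left h1 ha
        _ = U * (1 * |al m t|) := by ring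
        _ ≤ U * (ell t * |al m t|) :=
            mul_le_mul_of_nonneg_left (mul_le_mul_of_nonneg_right hell ha) hU0
    · have h1 : |Z (V - t)| ≤ Q * (ell V * ell t) := (hQ _).trans (mul_le_mul_of_nonneg_left (ell_sub_le V t) hQ0)
      have h2 : b t = U * (ell t * |al m t|) + Q * ell V * (ell t * |al m t|) := by
        rw [hb]
        simp only
        rw [indicator_of_mem (by simpa using ht)]
      rw [h2]
      have h3 : 0 ≤ U * (ell t * |al m t|) := mul_nonneg hU0 (mul_nonneg (ell_nonneg _) ha)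
      calc |al m t| * |Z (V - t)| ≤ |al m t| * (Q * (ell V * ell t)) := mul_le_mul_of_nonneg_left h1 ha
        _ = Q * ell V * (ell t * |al m t|) := by ring
        _ ≤ _ := by linarith
  have htot := ell_al_tot hm
  have htl := al_tail hm
  have e1 : ∫ t, b t = U * (∫ t, ell t * |al m t|) + Q * ell V * ∫ t in (Icc (-1:ℝ) 1)ᶜ, ell t * |al m t| := by
    rw [hb, integral_add (hi.const_mul U) hci, integral_const_mul, integral_indicator measurableSet_Icc.compl,
      integral_const_mul]
  rw [e1] at hle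
  have h5 : U * (∫ t, ell t * |al m t|) ≤ U * 16 := mul_le_mul_of_nonneg_left htot hU0
  have h6 : Q * ell V * (∫ t in (Icc (-1:ℝ) 1)ᶜ, ell t * |al m t|) ≤ Q * ell V * (16 * Real.exp (-((m - 4) / 4))) :=
    mul_le_mul_of_nonneg_left htl (mul_nonneg hQ0 (ell_nonneg _))
  calc |∫ t : ℝ, al m t * Z (V - t)| ≤ _ := hle
    _ ≤ U * 16 + Q * ell V * (16 * Real.exp (-((m - 4) / 4))) := add_le_add h5 h6
    _ = _ := by ring

/-- the two parts together -/
theorem Dv_up {ps : ℝ → ℝ} (hps : Integrable ps) (hsupp : ∀ y, 1 < |y| → ps y = 0) {B : ℝ} (h : GB (ff mr) B) {m : ℝ}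
    (hm : 8 ≤ m) {V U Q : ℝ} (hU0 : 0 ≤ U) (hQ0 : 0 ≤ Q)
    (hU : ∀ v, V - 1 ≤ v → v ≤ V + 1 → |Dv ps (ff mr) v| ≤ U) (hQ : ∀ v, |Dv ps (ff mr) v| ≤ Q * ell v) :
    |Dv ps (g1 m) V| ≤ 16 * U + 16 * Q * ell V * Real.exp (-((m - 4) / 4)) := by
  rw [Dv_g1 hps hsupp h hm]
  exact al_up hm hU0 hQ0 hU hQ

end Pool.Agent.Helper95.EQ
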