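import Pool.Agent.Helper63.EQ.Defs
import Pool.Agent.Helper63.EW.MaxG
import Pool.Agent.Helper99.MS.Lap
import Pool.Agent.Helper99.MS.Mz

/-! # Project EQ: the growth of the sum function from the bound of the weighted sums -/

set_option autoImplicit false

namespace Pool.Agent.Helper95.EQ

open MeasureTheory Set Filter Topology
open Pool.Agent.Helper95.EW
open Pool.Agent.Helper63.EW (S of_weighted)
open Pool.Agent.Helper63.EQ (Adm)
open Pool.Agent.Helper99.MS (ell ff mr GB abs_mr Asum Asum_zero)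

variable {w : ℝ → ℝ} {Cw : ℝ}

/-- the gauge `1 + log (1 + log n)` -/
noncomputable def G0 (n : ℕ) : ℝ := 1 + Real.log (1 + Real.log n)

theorem log_nat_nonneg (n : ℕ) : 0 ≤ Real.log n := Real.log_natCast_nonneg n

theorem G0_one (n : ℕ) : 1 ≤ G0 n := by
  unfold G0
  have := Real.log_nonneg (by linarith [log_nat_nonneg n] : (1:ℝ) ≤ 1 + Real.log n)
  linarith

theorem log_mono {n m : ℕ} (h : n ≤ m) : Real.log n ≤ Real.log m := by
  rcases Nat.eq_zero_or_pos n with hn | hn
  · rw [hn]
    simpa using log_nat_nonneg m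
  · exact Real.log_le_log (by exact_mod_cast hn) (by exact_mod_cast h)

theorem G0_mono : Monotone G0 := by
  intro n m h
  unfold G0
  have h1 := log_mono h
  have h2 := Real.log_le_log (by linarith [log_nat_nonneg n] : (0:ℝ) < 1 + Real.log n)
    (by linarith : 1 + Real.log n ≤ 1 + Real.log m)
  linarith

theorem loglog16 : (1:ℝ) ≤ Real.log (Real.log 16) := by
  have h2 := Real.log_two_gt_d9
  have h4 : Real.log 16 = 4 * Real.log 2 := by
    rw [show (16:ℝ) = 2 ^ 4 by norm_num, Real.log_pow]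
    norm_num
  have h3 : Real.exp 1 ≤ Real.log 16 := by
    have := Real.exp_one_lt_d9
    rw [h4]
    linarith
  rw [Real.le_log_iff_exp_le ((Real.exp_pos 1).trans_le h3)]
  exact h3

/-- **FIN1** -/
theorem fin1 (h : Adm w Cw) (c : ℝ) (N0 : ℕ)
    (hF : ∀ N : ℕ, N0 ≤ N → |S mr w N| ≤ c * (√(N : ℝ) * w (1 - 1 / √(Real.log (Real.log N))))) :
    ∃ B : ℝ, GB (ff mr) B := by
  have hC0 : 0 ≤ Cw := by
    have := (h.h0 0 ⟨le_rfl, one_pos⟩).trans (by simpa using h.hC 1 le_rfl)
    exact this
  -- the bound for all `N`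
  have hK : ∃ K : ℝ, ∀ N : ℕ, |S mr w N| ≤ K * (√(N : ℝ) * G0 N) := by
    set N1 := max N0 16 with hN1
    set T := ∑ j ∈ Finset.range N1, |S mr w j| with hT
    have hT0 : 0 ≤ T := Finset.sum_nonneg fun _ _ => abs_nonneg _
    refine ⟨|c| * (2 * Cw) + T, fun N => ?_⟩
    have hG := G0_one N
    have hs := Real.sqrt_nonneg (N : ℝ)
    rcases lt_or_ge N N1 with hN | hN
    · rcases Nat.eq_zero_or_pos N with h0 | h0
      · rw [h0]
        simp [S]
      · have h1 : |S mr w N| ≤ T := Finset.single_le_sum (f := fun j => |S mr w j|) (fun _ _ => abs_nonneg _)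
          (Finset.mem_range.mpr hN)
        have h2 : (1:ℝ) ≤ √(N : ℝ) := by
          rw [Real.one_le_sqrt]
          exact_mod_cast h0
        have h3 : (1:ℝ) ≤ √(N : ℝ) * G0 N := by nlinarith
        have h4 : 0 ≤ |c| * (2 * Cw) := by positivity
        nlinarith
    · have hN0 : N0 ≤ N := (le_max_left _ _).trans hN
      have hN16 : 16 ≤ N := (le_max_right _ _).trans hN
      have h16 : (16:ℝ) ≤ N := by exact_mod_cast hN16
      have hlN : Real.log 16 ≤ Real.log N := Real.log_le_log (by norm_num) h16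
      have hl16 : 0 < Real.log 16 := Real.log_pos (by norm_num)
      have hll : 1 ≤ Real.log (Real.log N) := loglog16.trans (Real.log_le_log hl16 hlN)
      set l := Real.log (Real.log N) with hl
      have hsl : 1 ≤ √l := Real.one_le_sqrt.mpr hll
      have hmem : (1 - 1 / √l) ∈ Ico (0:ℝ) 1 := by
        have e1 : 1 / √l ≤ 1 := by
          rw [div_le_iff₀ (by linarith)]
          linarith
        have e2 : 0 < 1 / √l := by positivity
        constructor <;> linarith
      have hw1 := w_bd h.h0 h.hw h.hC hmem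
      have hw0 := h.h0 _ hmem
      have e3 : √(1 - (1 - 1 / √l)) = √(1 / √l) := by ring_nf
      rw [e3] at hw1
      have hw2 : 2 * Cw / √(1 / √l) ≤ 2 * Cw * l := by
        have e4 : 1 / l ≤ √(1 / √l) := by
          apply Real.le_sqrt_of_sq_le
          have e5 : (1 / l) ^ 2 ≤ 1 / l := by
            have e6 : 1 / l ≤ 1 := by
              rw [div_le_iff₀ (by linarith)]
              linarith
            have e7 : 0 < 1 / l := by positivity
            nlinarith
          refine e5.trans ?_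
          apply one_div_le_one_div_of_le (by linarith)
          rw [Real.sqrt_le_left (by linarith)]
          nlinarith
        rw [div_le_iff₀ ((by positivity : (0:ℝ) < 1 / l).trans_le e4)]
        have e8 : 1 ≤ l * √(1 / √l) := by
          have := mul_le_mul_of_nonneg_left e4 (by linarith : 0 ≤ l)
          rwa [mul_one_div_cancel (by linarith)] at this
        nlinarith
      have hlG : l ≤ G0 N := by
        unfold G0
        have := Real.log_le_log (by linarith : 0 < Real.log N) (by linarith : Real.log N ≤ 1 + Real.log N)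
        linarith
      have h5 : |S mr w N| ≤ |c| * (√(N : ℝ) * (2 * Cw * G0 N)) := by
        refine (hF N hN0).trans ?_
        have e9 : w (1 - 1 / √l) ≤ 2 * Cw * G0 N := hw1.trans (hw2.trans (mul_le_mul_of_nonneg_left hlG (by linarith)))
        calc c * (√(N : ℝ) * w (1 - 1 / √l)) ≤ |c| * (√(N : ℝ) * w (1 - 1 / √l)) :=
              mul_le_mul_of_nonneg_right (le_abs_self c) (mul_nonneg hs hw0)
          _ ≤ |c| * (√(N : ℝ) * (2 * Cw * G0 N)) :=
              mul_le_mul_of_nonneg_left (mul_le_mul_of_nonneg_left e9 hs) (abs_nonneg c)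
      have h6 : 0 ≤ T * (√(N : ℝ) * G0 N) := mul_nonneg hT0 (mul_nonneg hs (by linarith))
      calc |S mr w N| ≤ |c| * (√(N : ℝ) * (2 * Cw * G0 N)) := h5
        _ = |c| * (2 * Cw) * (√(N : ℝ) * G0 N) := by ring
        _ ≤ (|c| * (2 * Cw) + T) * (√(N : ℝ) * G0 N) := by linarith
  have hne : ∃ t ∈ Set.Ico (0 : ℝ) 1, w t ≠ 0 := by
    obtain ⟨t, h1, h2⟩ := h.hub 0
    exact ⟨t, h1, h2.ne'⟩
  obtain ⟨K, hK⟩ := of_weighted h.h0 h.hw abs_mr hne h.hC G0_mono G0_one hK
  have hK0 : 0 ≤ K := by
    have h1 := (abs_nonneg _).trans (hK 1)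
    have h2 := G0_one 1
    simp only [Nat.cast_one, Real.sqrt_one, one_mul] at h1
    by_contra hc
    push Not at hc
    nlinarith
  refine ⟨K, fun u => ?_⟩
  unfold ff
  rcases lt_or_ge u 0 with hu | hu
  · rw [Asum_zero (Real.exp_lt_one_iff.mpr hu), zero_mul, abs_zero]
    unfold ell
    have := Real.log_nonneg (show (1:ℝ) ≤ 1 + |u| by linarith [abs_nonneg u])
    positivity
  · rw [abs_mul, abs_of_pos (Real.exp_pos _)]
    have h1 := hK ⌊Real.exp u⌋₊
    have hfl : ((⌊Real.exp u⌋₊ : ℕ) : ℝ) ≤ Real.exp u := Nat.floor_le (Real.exp_pos u).le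
    have hf1 : 1 ≤ ⌊Real.exp u⌋₊ := Nat.le_floor (by simpa using Real.one_le_exp hu)
    have h2 : √((⌊Real.exp u⌋₊ : ℕ) : ℝ) ≤ Real.exp (u / 2) := by
      refine (Real.sqrt_le_sqrt hfl).trans_eq ?_
      rw [← Real.exp_half]
    have h3 : G0 ⌊Real.exp u⌋₊ ≤ ell u := by
      unfold G0 ell
      have e1 : Real.log ((⌊Real.exp u⌋₊ : ℕ) : ℝ) ≤ u := by
        have := Real.log_le_log (by exact_mod_cast hf1) hfl
        rwa [Real.log_exp] at this
      have e2 := Real.log_le_log (by linarith [log_nat_nonneg ⌊Real.exp u⌋₊])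
        (by rw [abs_of_nonneg hu]; linarith : 1 + Real.log ((⌊Real.exp u⌋₊ : ℕ) : ℝ) ≤ 1 + |u|)
      linarith
    have hG1 := G0_one ⌊Real.exp u⌋₊
    have h4 : |Asum mr (Real.exp u)| ≤ K * (Real.exp (u / 2) * ell u) := by
      unfold Asum
      refine h1.trans (mul_le_mul_of_nonneg_left ?_ hK0)
      exact mul_le_mul h2 h3 (by linarith) (Real.exp_pos _).le
    calc |Asum mr (Real.exp u)| * Real.exp (-(u / 2))
        ≤ K * (Real.exp (u / 2) * ell u) * Real.exp (-(u / 2)) := mul_le_mul_of_nonneg_right h4 (Real.exp_pos _).le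
      _ = K * ell u * (Real.exp (u / 2) * Real.exp (-(u / 2))) := by ring
      _ = K * ell u := by rw [← Real.exp_add, add_neg_cancel, Real.exp_zero, mul_one]

end Pool.Agent.Helper95.EQ
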